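import Pool.Agent.TH957.Lang.High

/-!
Lang's equivalence for projective varieties over number fields given by sums of few high powers,
with the rational points restricted to those with few nonzero digits in some base.
-/

set_option autoImplicit false

namespace Pool.Agent.Results.MP_f82ddf_nt.HighPowerForms

open MvPolynomial Pool.Agent.TH957.Lang Pool.Agent.H159R3.Lang

/-- Let `X` be a projective variety over a number field `K`, given by forms `F i` that are sums of
few high powers of linear forms over the complex numbers (via the embedding `σ`), or given by forms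
with few monomials whose exponents are divisible by large numbers. Then `X_σ` is hyperbolic if and
only if over every finite extension `L` of `K` there are only finitely many sparse points (with a
given number of digits, of bounded size, in an arbitrary base), and if and only if `X_σ` contains no
rational curve. In particular `X_σ` is hyperbolic if `X(L)` is finite for all finite extensions `L`
of `K`, and if `X_τ` is hyperbolic for some embedding `τ`. -/
theorem result (K : Type) [Field K] [NumberField K] {ι : Type} [Finite ι] {n : ℕ}
    (F : ι → MvPolynomial (Fin (n + 1)) K) (d : ι → ℕ) (hF : ∀ i, (F i).IsHomogeneous (d i))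
    (hd : ∀ i, 0 < d i) (σ : K →+* ℂ)
    (hC : (∀ i, SmallWaring σ (F i) (d i)) ∨ (∀ i, PowerSparse (F i))) :
    [Hyperbolic σ F, SparseFinite F, NoRationalCurve σ F].TFAE ∧
    ((∀ (L : Type) [Field L] [Algebra K L] [FiniteDimensional K L], (points F L).Finite) →
      Hyperbolic σ F) ∧
    (∀ τ : K →+* ℂ, Hyperbolic τ F → Hyperbolic σ F) := by
  have hF' : ∀ i, ∃ d, (F i).IsHomogeneous d := fun i => ⟨d i, hF i⟩
  have h31 : NoRationalCurve σ F → Hyperbolic σ F := by
    intro h
    rcases hC with hC | hC
    · exact hyperbolic_of_waring σ F d hd hC h
    · exact hyperbolic_of_powers σ F d hF hC h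
  have h12 : ∀ τ : K →+* ℂ, Hyperbolic τ F → SparseFinite F := by
    intro τ h L _ _ _ r B
    have : FiniteDimensional K L := Module.Finite.of_restrictScalars_finite ℚ K L
    exact finite_of_noRational τ F hF' (noRational_of_exp τ F fun f hf => h f hf.1) L r B
  have h23 : SparseFinite F → NoRationalCurve σ F := fun h => noRational_of_sparse σ F hF' h
  refine ⟨?_, fun hfin => h31 (h23 ?_), fun τ hτ => h31 (h23 (h12 τ hτ))⟩
  · tfae_have 1 → 2 := h12 σ
    tfae_have 2 → 3 := h23
    tfae_have 3 → 1 := h31
    tfae_finish
  · intro L _ _ _ r B
    have : FiniteDimensional K L := Module.Finite.of_restrictScalars_finite ℚ K L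
    refine (hfin L).subset ?_
    rintro P ⟨x, hx, rfl, hF0, -⟩ i
    obtain ⟨a, ha⟩ := Projectivization.exists_smul_eq_mk_rep L _ hx
    have h1 : (Projectivization.mk L (fun j => algebraMap (NumberField.RingOfIntegers L) L (x j))
        hx).rep = (a : L) • fun j => algebraMap (NumberField.RingOfIntegers L) L (x j) := by
      rw [← ha]; rfl
    rw [h1, aeval_smul_homog (hF i), hF0 i, mul_zero]

end Pool.Agent.Results.MP_f82ddf_nt.HighPowerForms
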