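import Mathlib
import Pool.Agent.TH600.LC.Lang
import Pool.Agent.TH600.LC.Seq

/-!
MP_f82ddf_nt, Q1: the equivalence of hyperbolicity and finiteness of rational points, for entire
curves with coordinates in the ring generated by the entire functions with Hadamard gaps.
-/

set_option autoImplicit false

namespace Pool.Agent.Results.MP_f82ddf_nt.LacunaryLang

open MvPolynomial Pool.Agent.TH143 Pool.Agent.TH143.HE Pool.Agent.TH600.LC
open scoped LinearAlgebra.Projectivization

variable {K : Type} [Field K] [NumberField K] {N : ℕ}

/-- The points of the projective variety given by the forms in `I`, with coordinates in `L`. -/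
def Pts (L : Type) [Field L] [Algebra K L] (I : Ideal (MvPolynomial (Fin (N + 1)) K)) :
    Set (ℙ L (Fin (N + 1) → L)) :=
  {P | IsPtP (algebraMap K L) I P.rep}

/-- The set `X(L)`, without the points of `Z`, is finite for all finite extensions `L` of `K`. -/
def Finiteness (I I' : Ideal (MvPolynomial (Fin (N + 1)) K)) : Prop :=
  ∀ (L : Type) [Field L] [NumberField L] [Algebra K L], (Pts L I \ Pts L I').Finite

/-- For all finite extensions `L` of `K`, all sequences of points of `X(L)` outside of `Z`, with
homogeneous coordinates satisfying the condition `C`, have only finitely many different terms. -/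
def FinitenessSeq (C : ∀ (L : Type) [Field L], (ℕ → L) → Prop)
    (I I' : Ideal (MvPolynomial (Fin (N + 1)) K)) : Prop :=
  ∀ (L : Type) [Field L] [NumberField L] [Algebra K L] (x : ℕ → Fin (N + 1) → L)
    (hx : ∀ m, x m ≠ 0), (∀ j, C L fun m => x m j) →
    (∀ m, Projectivization.mk L (x m) (hx m) ∈ Pts L I \ Pts L I') →
    (Set.range fun m => Projectivization.mk L (x m) (hx m)).Finite

/-- The finiteness for polynomial sequences. -/
def FinitenessPoly (I I' : Ideal (MvPolynomial (Fin (N + 1)) K)) : Prop :=
  FinitenessSeq (fun L _ => PolySeq) I I'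

/-- The finiteness for P-recursive sequences. -/
def FinitenessHol (I I' : Ideal (MvPolynomial (Fin (N + 1)) K)) : Prop :=
  FinitenessSeq (fun L _ => PRec) I I'

theorem isPtP_smul {L : Type} [Field L] [Algebra K L] {I : Ideal (MvPolynomial (Fin (N + 1)) K)}
    {x : Fin (N + 1) → L} (h : IsPtP (algebraMap K L) I x) (a : L) :
    IsPtP (algebraMap K L) I (fun j => a * x j) := by
  rintro G hG ⟨d, hd⟩
  rw [eval₂_smul_homog _ a x hd, h G hG ⟨d, hd⟩, mul_zero]

theorem mem_pts {L : Type} [Field L] [Algebra K L] {I : Ideal (MvPolynomial (Fin (N + 1)) K)}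
    {x : Fin (N + 1) → L} (hx : x ≠ 0) :
    Projectivization.mk L x hx ∈ Pts L I ↔ IsPtP (algebraMap K L) I x := by
  obtain ⟨a, ha⟩ := Projectivization.exists_smul_eq_mk_rep L x hx
  have h1 : (Projectivization.mk L x hx).rep = fun j => (a : L) * x j := by
    rw [← ha]
    rfl
  constructor
  · intro h
    have h2 : IsPtP (algebraMap K L) I (Projectivization.mk L x hx).rep := h
    rw [h1] at h2
    have h3 := isPtP_smul h2 (a : L)⁻¹
    have h4 : (fun j => (a : L)⁻¹ * ((a : L) * x j)) = x := by
      funext j
      rw [inv_mul_cancel_left₀ a.ne_zero]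
    rwa [h4] at h3
  · intro h
    change IsPtP (algebraMap K L) I (Projectivization.mk L x hx).rep
    rw [h1]
    exact isPtP_smul h _

theorem mk_eq {L : Type} [Field L] {x y : Fin (N + 1) → L} (hx : x ≠ 0) (hy : y ≠ 0)
    (h : ∀ i j, x i * y j = x j * y i) :
    Projectivization.mk L x hx = Projectivization.mk L y hy := by
  obtain ⟨k, hk⟩ := Function.ne_iff.1 hy
  have hk' : y k ≠ 0 := hk
  have h1 : x = (x k / y k) • y := by
    funext i
    rw [Pi.smul_apply, smul_eq_mul, div_mul_eq_mul_div, eq_div_iff hk']
    exact h i k
  rw [Projectivization.mk_eq_mk_iff']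
  exact ⟨x k / y k, h1.symm⟩

/-- Let `K` be a number field, embedded in `ℂ` by `σ`, let `X` and `Z` be the projective varieties
over `K` given by the forms in `I` and `I'`. The following are equivalent: all nonconstant entire
curves in `X` with homogeneous coordinates in the ring generated by the entire functions with
Hadamard gaps lie in `Z`; for all finite extensions `L` of `K`, all polynomial sequences of points
of `X(L)` outside of `Z` have finitely many different terms; the same holds for all P-recursive
sequences; all rational curves in `X` lie in `Z`.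

In particular, if `X(L)` without the points of `Z` is finite for all `L`, then all nonconstant
entire curves of this kind in `X` lie in `Z`. -/
theorem result (σ : K →+* ℂ) (I I' : Ideal (MvPolynomial (Fin (N + 1)) K)) :
    [GapCurvesIn σ I I', FinitenessPoly I I', FinitenessHol I I', RatCurvesIn σ I I'].TFAE ∧
    (Finiteness I I' → GapCurvesIn σ I I') := by
  classical
  have h14 : GapCurvesIn σ I I' → RatCurvesIn σ I I' := rat_of_gap
  have h41 : RatCurvesIn σ I I' → GapCurvesIn σ I I' := gap_of_rat
  have h43 : RatCurvesIn σ I I' → FinitenessHol I I' := by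
    intro h L _ _ _ x hx hrec hpts
    let _ : Algebra K ℂ := σ.toAlgebra
    have halg : Algebra.IsAlgebraic K L := Algebra.IsAlgebraic.tower_top (K := ℚ) K
    let e : L →ₐ[K] ℂ := IsAlgClosed.lift
    have he : (e : L →+* ℂ).comp (algebraMap K L) = σ := by
      ext r
      exact e.commutes _
    have hpt : ∀ (J : Ideal (MvPolynomial (Fin (N + 1)) K)) (y : Fin (N + 1) → L),
        IsPtP σ J (fun j => e (y j)) ↔ IsPtP (algebraMap K L) J y := by
      intro J y
      have h1 : ∀ G : MvPolynomial (Fin (N + 1)) K, eval₂ σ (fun j => e (y j)) G =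
          e (eval₂ (algebraMap K L) y G) := by
        intro G
        rw [← he]
        exact (eval₂_comp_left (e : L →+* ℂ) (algebraMap K L) y G).symm
      unfold IsPtP
      simp only [h1, map_eq_zero]
    obtain ⟨k, m0, hk, hper⟩ := proj_periodic h (x := fun m j => e (x m j))
      (fun m h0 => hx m (funext fun j => by
        have := congrFun h0 j
        simpa using this)) (fun j => (hrec j).map (e : L →+* ℂ))
      (fun m => (hpt I (x m)).2 ((mem_pts (hx m)).1 (hpts m).1))
      (fun m hcon => (hpts m).2 ((mem_pts (hx m)).2 ((hpt I' (x m)).1 hcon)))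
    have hper' : ∀ m, m0 ≤ m →
        Projectivization.mk L (x (m + k)) (hx (m + k)) = Projectivization.mk L (x m) (hx m) := by
      refine fun m hm => mk_eq _ _ fun i j => ?_
      have h2 := hper m hm i j
      rw [← map_mul, ← map_mul] at h2
      exact (e : L →+* ℂ).injective h2
    refine ((Set.finite_lt_nat (m0 + k)).image
      fun m => Projectivization.mk L (x m) (hx m)).subset ?_
    rintro _ ⟨m, rfl⟩
    induction m using Nat.strong_induction_on with
    | _ m ih =>
      rcases Nat.lt_or_ge m (m0 + k) with h1 | h1
      · exact ⟨m, h1, rfl⟩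
      · have h2 := hper' (m - k) (by omega)
        have h3 : m - k + k = m := by omega
        have h4 : Projectivization.mk L (x m) (hx m) =
            Projectivization.mk L (x (m - k)) (hx (m - k)) := by
          rw [← h2]
          congr 1
          rw [h3]
        simp only at ih ⊢
        rw [h4]
        exact ih (m - k) (by omega)
  have h32 : FinitenessHol I I' → FinitenessPoly I I' := by
    intro h L _ _ _ x hx hrec hpts
    exact h L x hx (fun j => (hrec j).pRec) hpts
  have h24 : FinitenessPoly I I' → RatCurvesIn σ I I' := by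
    intro h
    rw [ratCurvesIn_iff]
    intro p hp
    let _ : Algebra K ℂ := σ.toAlgebra
    have hp1 : RCur ((algebraMap K ℂ).comp (RingHom.id K)) I I' p := hp
    obtain ⟨L, _, _, _, p', hp'⟩ := RCur.spec (k := K) (E := ℂ) (RingHom.id K) hp1
    have hchar : CharZero L := charZero_of_injective_algebraMap (algebraMap K L).injective
    have hfin : FiniteDimensional ℚ L := FiniteDimensional.trans ℚ K L
    have hnf : NumberField L := ⟨⟩
    rw [RingHom.comp_id] at hp'
    obtain ⟨x, h1, h2, h3, h4, h5⟩ := exists_seq_poly (algebraMap K L) hp'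
    have h6 := h L x h1 h4 (fun m => ⟨(mem_pts (h1 m)).2 (h2 m),
      fun hc => h3 m ((mem_pts (h1 m)).1 hc)⟩)
    have h7 := h6.preimage' (f := fun m => Projectivization.mk L (x m) (h1 m)) fun P _ => by
      refine (h5 P.rep P.rep_nonzero).subset fun m hm i j => ?_
      have h8 : Projectivization.mk L (x m) (h1 m) = P := hm
      rw [← h8]
      obtain ⟨a, ha⟩ := Projectivization.exists_smul_eq_mk_rep L (x m) (h1 m)
      rw [← ha]
      change x m i * ((a : L) * x m j) = x m j * ((a : L) * x m i)
      ring
    rw [Set.preimage_range] at h7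
    exact Set.infinite_univ h7
  refine ⟨?_, fun h => h41 (h24 ?_)⟩
  · tfae_have 1 → 4 := h14
    tfae_have 4 → 1 := h41
    tfae_have 4 → 3 := h43
    tfae_have 3 → 2 := h32
    tfae_have 2 → 4 := h24
    tfae_finish
  · intro L _ _ _ x hx _ hpts
    refine (h L).subset ?_
    rintro _ ⟨m, rfl⟩
    exact hpts m

end Pool.Agent.Results.MP_f82ddf_nt.LacunaryLang
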