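import Mathlib
import Pool.Agent.TH710.NW.Proj

/-!
MP_f82ddf_nt, Q1: Lang's equivalence for projective varieties over number fields given by nested
sums of few high powers, with the rational points restricted to those with few nonzero digits in
some base.
-/

set_option autoImplicit false

namespace Pool.Agent.Results.MP_f82ddf_nt.NestedPowerForms

open MvPolynomial Pool.Agent.TH957.Lang Pool.Agent.H159R3.Lang
open Pool.Agent.TH710.NW (Tower TowerM)

/-- Let `X` be a projective variety over a number field `K` such that the conjugates of its
equations `F i` by an embedding `σ` are nested sums (of any depth) of few high powers of linear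
forms, or nested sums of few high powers of monomials. Then `X_σ` is hyperbolic if and only if over
every finite extension `L` of `K` there are only finitely many sparse points (with a given number of
digits, of bounded size, in an arbitrary base), and if and only if `X_σ` contains no rational curve.
In particular `X_σ` is hyperbolic if `X(L)` is finite for all finite extensions `L` of `K`, and if
`X_τ` is hyperbolic for some embedding `τ`. -/
theorem result (K : Type) [Field K] [NumberField K] {ι : Type} [Finite ι] {n : ℕ}
    (F : ι → MvPolynomial (Fin (n + 1)) K) (hF : ∀ i, ∃ d, (F i).IsHomogeneous d) (σ : K →+* ℂ)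
    (hC : (∀ i, Tower (map σ (F i))) ∨ (∀ i, TowerM (map σ (F i)))) :
    [Hyperbolic σ F, SparseFinite F, NoRationalCurve σ F].TFAE ∧
    ((∀ (L : Type) [Field L] [Algebra K L] [FiniteDimensional K L], (points F L).Finite) →
      Hyperbolic σ F) ∧
    (∀ τ : K →+* ℂ, Hyperbolic τ F → Hyperbolic σ F) := by
  have h31 : NoRationalCurve σ F → Hyperbolic σ F := by
    intro h
    rcases hC with hC | hC
    · exact Pool.Agent.TH710.NW.hyperbolic_of_tower σ F hC h
    · exact Pool.Agent.TH710.NW.hyperbolic_of_towerM σ F hF hC h
  have h12 : ∀ τ : K →+* ℂ, Hyperbolic τ F → SparseFinite F := by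
    intro τ h L _ _ _ r B
    have : FiniteDimensional K L := Module.Finite.of_restrictScalars_finite ℚ K L
    exact finite_of_noRational τ F hF (noRational_of_exp τ F fun f hf => h f hf.1) L r B
  have h23 : SparseFinite F → NoRationalCurve σ F := fun h => noRational_of_sparse σ F hF h
  refine ⟨?_, fun hfin => h31 (h23 ?_), fun τ hτ => h31 (h23 (h12 τ hτ))⟩
  · tfae_have 1 → 2 := h12 σ
    tfae_have 2 → 3 := h23
    tfae_have 3 → 1 := h31
    tfae_finish
  · intro L _ _ _ r B
    have : FiniteDimensional K L := Module.Finite.of_restrictScalars_finite ℚ K L
    refine (hfin L).subset ?_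
    rintro P ⟨x, hx, rfl, hF0, -⟩ i
    obtain ⟨a, ha⟩ := Projectivization.exists_smul_eq_mk_rep L _ hx
    have h1 : (Projectivization.mk L (fun j => algebraMap (NumberField.RingOfIntegers L) L (x j))
        hx).rep = (a : L) • fun j => algebraMap (NumberField.RingOfIntegers L) L (x j) := by
      rw [← ha]; rfl
    obtain ⟨d, hd⟩ := hF i
    rw [h1, aeval_smul_homog hd, hF0 i, mul_zero]

end Pool.Agent.Results.MP_f82ddf_nt.NestedPowerForms
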